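import Mathlib

set_option autoImplicit false

/-!
For odd `k`, no graph containing a subdivision of the Petersen graph has property `P_k`.
-/

namespace Pool.Agent.Results.MP_3c540c_co.OddMultiples

open Finset

open scoped Classical

section Definitions

variable {V E : Type} [Fintype V] [Fintype E]

/-- `S` is an even edge set: every vertex is an end of an even number of non-loop edges of `S`. -/
def IsEvenSet (ends : E → Sym2 V) (S : Finset E) : Prop :=
  ∀ v : V, Even (S.filter (fun e => v ∈ ends e ∧ ¬ (ends e).IsDiag)).card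

/-- Circuits (as edge sets): the minimal nonempty even edge sets. -/
def IsCircuit (ends : E → Sym2 V) (C : Finset E) : Prop :=
  C.Nonempty ∧ IsEvenSet ends C ∧ ∀ D ⊆ C, D.Nonempty → IsEvenSet ends D → D = C

/-- The edge `e` has exactly one end in `X`. -/
def InCut (ends : E → Sym2 V) (X : Set V) (e : E) : Prop :=
  ∃ x y : V, ends e = s(x, y) ∧ x ∈ X ∧ y ∉ X

/-- The total weight of the edge cut given by `X`. -/
noncomputable def cutWeight (ends : E → Sym2 V) (w : E → ℕ) (X : Set V) : ℕ :=
  ∑ e ∈ univ.filter (InCut ends X), w e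

/-- Every edge cut has even weight. -/
def IsEulerian (ends : E → Sym2 V) (w : E → ℕ) : Prop :=
  ∀ X : Set V, Even (cutWeight ends w X)

/-- In every edge cut, every edge weighs at most as much as the other edges together. -/
def IsAdmissible (ends : E → Sym2 V) (w : E → ℕ) : Prop :=
  ∀ (X : Set V) (e : E), InCut ends X e → w e ≤ cutWeight ends w X - w e

/-- There is a finite family of circuits such that every edge `e` lies in exactly `w e` of them. -/
def HasFaithfulCover (ends : E → Sym2 V) (w : E → ℕ) : Prop :=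
  ∃ (n : ℕ) (C : Fin n → Finset E), (∀ j, IsCircuit ends (C j)) ∧
    ∀ e : E, (univ.filter (fun j => e ∈ C j)).card = w e

/-- Property `P_k`: every admissible eulerian weight all of whose values are multiples of `k` has
a faithful circuit cover. -/
def PropertyP (ends : E → Sym2 V) (k : ℕ) : Prop :=
  ∀ w : E → ℕ, (∀ e, k ∣ w e) → IsAdmissible ends w → IsEulerian ends w →
    HasFaithfulCover ends w

end Definitions

/-- First ends of the 15 edges of the Petersen graph on the vertices `0, ..., 9`: the edges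
`0, ..., 4` form the outer pentagon, `5, ..., 9` are the spokes, `10, ..., 14` form the inner
pentagram. -/
def pa (i : Fin 15) : Fin 10 :=
  (![0, 1, 2, 3, 4, 0, 1, 2, 3, 4, 5, 6, 7, 8, 9] : Fin 15 → Fin 10) i

/-- Second ends of the 15 edges of the Petersen graph. -/
def pb (i : Fin 15) : Fin 10 :=
  (![1, 2, 3, 4, 0, 5, 6, 7, 8, 9, 7, 8, 9, 5, 6] : Fin 15 → Fin 10) i

/-- A subdivision of the Petersen graph contained in a graph: ten branch vertices and, for each
edge `i` of the Petersen graph, a path with `len i` edges joining the two branch vertices; the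
interior vertices of the paths are pairwise distinct and are not branch vertices, and the edges
are distinct. -/
structure PetersenSubdivision {V E : Type} (ends : E → Sym2 V) where
  branch : Fin 10 → V
  len : Fin 15 → ℕ
  vert : Fin 15 → ℕ → V
  edge : Fin 15 → ℕ → E
  branch_inj : Function.Injective branch
  len_pos : ∀ i, 0 < len i
  vert_start : ∀ i, vert i 0 = branch (pa i)
  vert_end : ∀ i, vert i (len i) = branch (pb i)
  ends_edge : ∀ i t, t < len i → ends (edge i t) = s(vert i t, vert i (t + 1))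
  interior_inj : ∀ i t j s, 0 < t → t < len i → 0 < s → s < len j → vert i t = vert j s →
    i = j ∧ t = s
  interior_ne_branch : ∀ i t a, 0 < t → t < len i → vert i t ≠ branch a
  edge_inj : ∀ i t j s, t < len i → s < len j → edge i t = edge j s → i = j ∧ t = s

/-- Sanity check: the Petersen graph contains a subdivision of itself. -/
theorem petersen_self : Nonempty (PetersenSubdivision (fun i : Fin 15 => s(pa i, pb i))) := by
  refine ⟨{
    branch := fun a => a
    len := fun _ => 1
    vert := fun i t => if t = 0 then pa i else pb i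
    edge := fun i _ => i
    branch_inj := fun _ _ h => h
    len_pos := fun _ => Nat.one_pos
    vert_start := fun i => if_pos rfl
    vert_end := fun i => if_neg one_ne_zero
    ends_edge := ?_
    interior_inj := ?_
    interior_ne_branch := ?_
    edge_inj := ?_ }⟩
  · intro i t ht
    obtain rfl : t = 0 := by omega
    rfl
  · intro i t j s h1 h2
    omega
  · intro i t a h1 h2
    omega
  · intro i t j s h1 h2 h
    exact ⟨h, by omega⟩

/-! ### The Petersen graph -/

lemma pa_ne_pb : ∀ i : Fin 15, pa i ≠ pb i := by decide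

/-- weights: `2` on the spokes, `1` on the two pentagons -/
def w0 (i : Fin 15) : ℕ := (![1, 1, 1, 1, 1, 2, 2, 2, 2, 2, 1, 1, 1, 1, 1] : Fin 15 → ℕ) i

lemma w0_le : ∀ i : Fin 15, w0 i ≤ 2 := by decide

lemma w0_pos : ∀ i : Fin 15, 1 ≤ w0 i := by decide

/-- number of the form 0 or 1 -/
def xr (a b : Bool) : ℕ := if a = b then 0 else 1

def pcut (f : Fin 10 → Bool) : ℕ :=
  xr (f 0) (f 1) + xr (f 1) (f 2) + xr (f 2) (f 3) + xr (f 3) (f 4) + xr (f 4) (f 0) +
  2 * xr (f 0) (f 5) + 2 * xr (f 1) (f 6) + 2 * xr (f 2) (f 7) + 2 * xr (f 3) (f 8) +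
  2 * xr (f 4) (f 9) + xr (f 5) (f 7) + xr (f 6) (f 8) + xr (f 7) (f 9) + xr (f 8) (f 5) +
  xr (f 9) (f 6)

lemma pcut_ge : ∀ f : Fin 10 → Bool, 4 ≤ pcut f ∨ ∀ i, f i = f 0 := by decide +kernel

/-! ### The parity argument -/

lemma tight {m : ℕ} (p q r : Fin m → ℕ) (hr : ∀ j, r j ≤ 1)
    (he : ∀ j, Even (p j + q j + r j)) (hs : ∑ j, r j = ∑ j, p j + ∑ j, q j) :
    ∀ j, r j = p j + q j := by
  have hle : ∀ j ∈ (Finset.univ : Finset (Fin m)), r j ≤ p j + q j := by
    intro j _
    obtain ⟨t, ht⟩ := he j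
    have := hr j
    omega
  rw [← Finset.sum_add_distrib] at hs
  have := (Finset.sum_eq_sum_iff_of_le hle).mp hs
  intro j
  exact this j (Finset.mem_univ j)

lemma no_odd {m : ℕ} (b : Fin m → Fin 15 → ℕ) (hb : ∀ j i, b j i ≤ 1)
    (p0 : ∀ j, Even (b j 4 + b j 0 + b j 5)) (p1 : ∀ j, Even (b j 0 + b j 1 + b j 6))
    (p2 : ∀ j, Even (b j 1 + b j 2 + b j 7)) (p3 : ∀ j, Even (b j 2 + b j 3 + b j 8))
    (p4 : ∀ j, Even (b j 3 + b j 4 + b j 9)) (p5 : ∀ j, Even (b j 13 + b j 10 + b j 5))
    (p6 : ∀ j, Even (b j 14 + b j 11 + b j 6)) (p7 : ∀ j, Even (b j 10 + b j 12 + b j 7))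
    (p8 : ∀ j, Even (b j 11 + b j 13 + b j 8)) (p9 : ∀ j, Even (b j 12 + b j 14 + b j 9))
    (c : ℕ) (hc : Odd c) (hs : ∀ i, ∑ j, b j i = c * w0 i) : False := by
  have hs' : ∀ i, ∑ j, b j i = c * w0 i := hs
  have s0 : ∑ j, b j 0 = c := by rw [hs]; exact mul_one c
  have s1 : ∑ j, b j 1 = c := by rw [hs]; exact mul_one c
  have s2 : ∑ j, b j 2 = c := by rw [hs]; exact mul_one c
  have s3 : ∑ j, b j 3 = c := by rw [hs]; exact mul_one c
  have s4 : ∑ j, b j 4 = c := by rw [hs]; exact mul_one c
  have s5 : ∑ j, b j 5 = c + c := by rw [hs]; exact mul_two c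
  have s6 : ∑ j, b j 6 = c + c := by rw [hs]; exact mul_two c
  have s7 : ∑ j, b j 7 = c + c := by rw [hs]; exact mul_two c
  have s8 : ∑ j, b j 8 = c + c := by rw [hs]; exact mul_two c
  have s9 : ∑ j, b j 9 = c + c := by rw [hs]; exact mul_two c
  have s10 : ∑ j, b j 10 = c := by rw [hs]; exact mul_one c
  have s11 : ∑ j, b j 11 = c := by rw [hs]; exact mul_one c
  have s12 : ∑ j, b j 12 = c := by rw [hs]; exact mul_one c
  have s13 : ∑ j, b j 13 = c := by rw [hs]; exact mul_one c
  have s14 : ∑ j, b j 14 = c := by rw [hs]; exact mul_one c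
  have e0 := tight (fun j => b j 4) (fun j => b j 0) (fun j => b j 5) (fun j => hb j 5) p0
    (by rw [s5, s4, s0])
  have e1 := tight (fun j => b j 0) (fun j => b j 1) (fun j => b j 6) (fun j => hb j 6) p1
    (by rw [s6, s0, s1])
  have e2 := tight (fun j => b j 1) (fun j => b j 2) (fun j => b j 7) (fun j => hb j 7) p2
    (by rw [s7, s1, s2])
  have e3 := tight (fun j => b j 2) (fun j => b j 3) (fun j => b j 8) (fun j => hb j 8) p3
    (by rw [s8, s2, s3])
  have e4 := tight (fun j => b j 3) (fun j => b j 4) (fun j => b j 9) (fun j => hb j 9) p4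
    (by rw [s9, s3, s4])
  have e5 := tight (fun j => b j 13) (fun j => b j 10) (fun j => b j 5) (fun j => hb j 5) p5
    (by rw [s5, s13, s10])
  have e6 := tight (fun j => b j 14) (fun j => b j 11) (fun j => b j 6) (fun j => hb j 6) p6
    (by rw [s6, s14, s11])
  have e7 := tight (fun j => b j 10) (fun j => b j 12) (fun j => b j 7) (fun j => hb j 7) p7
    (by rw [s7, s10, s12])
  have e8 := tight (fun j => b j 11) (fun j => b j 13) (fun j => b j 8) (fun j => hb j 8) p8
    (by rw [s8, s11, s13])
  have e9 := tight (fun j => b j 12) (fun j => b j 14) (fun j => b j 9) (fun j => hb j 9) p9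
    (by rw [s9, s12, s14])
  have hev : ∀ j, (2 : ℕ) ∣ (b j 0 + b j 1 + b j 2 + b j 3 + b j 4) := by
    intro j
    have f0 := e0 j
    have f1 := e1 j
    have f2 := e2 j
    have f3 := e3 j
    have f4 := e4 j
    have f5 := e5 j
    have f6 := e6 j
    have f7 := e7 j
    have f8 := e8 j
    have f9 := e9 j
    have g := hb j
    have g5 := g 5
    have g6 := g 6
    have g7 := g 7
    have g8 := g 8
    have g9 := g 9
    rcases Nat.le_one_iff_eq_zero_or_eq_one.mp g5 with k5 | k5 <;>
    rcases Nat.le_one_iff_eq_zero_or_eq_one.mp g6 with k6 | k6 <;>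
    rcases Nat.le_one_iff_eq_zero_or_eq_one.mp g7 with k7 | k7 <;>
    rcases Nat.le_one_iff_eq_zero_or_eq_one.mp g8 with k8 | k8 <;>
    rcases Nat.le_one_iff_eq_zero_or_eq_one.mp g9 with k9 | k9 <;>
    omega
  have h : (2 : ℕ) ∣ ∑ j, (b j 0 + b j 1 + b j 2 + b j 3 + b j 4) :=
    Finset.dvd_sum (fun j _ => hev j)
  rw [Finset.sum_add_distrib, Finset.sum_add_distrib, Finset.sum_add_distrib,
    Finset.sum_add_distrib, s0, s1, s2, s3, s4] at h
  obtain ⟨r, hr⟩ := hc
  omega

/-! ### Subdivisions -/

section Subdivision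

set_option linter.unusedSectionVars false

variable {V E : Type} [Fintype V] [Fintype E] {ends : E → Sym2 V}

lemma vert_ne (S : PetersenSubdivision ends) (i : Fin 15) (t : ℕ) (ht : t < S.len i) :
    S.vert i t ≠ S.vert i (t + 1) := by
  intro h
  rcases Nat.eq_zero_or_pos t with h0 | h0
  · subst h0
    rcases Nat.lt_or_ge 1 (S.len i) with h1 | h1
    · exact S.interior_ne_branch i 1 (pa i) (by omega) h1 (by rw [← h, S.vert_start])
    · have h2 : S.len i = 1 := by omega
      rw [S.vert_start, show (0 + 1 : ℕ) = S.len i by omega, S.vert_end] at h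
      exact pa_ne_pb i (S.branch_inj h)
  · rcases Nat.lt_or_ge (t + 1) (S.len i) with h1 | h1
    · have := (S.interior_inj i t i (t + 1) h0 ht (by omega) h1 h).2
      omega
    · have h2 : t + 1 = S.len i := by omega
      rw [h2, S.vert_end] at h
      exact S.interior_ne_branch i t (pb i) h0 ht h

lemma not_diag (S : PetersenSubdivision ends) (i : Fin 15) (t : ℕ) (ht : t < S.len i) :
    ¬ (ends (S.edge i t)).IsDiag := by
  rw [S.ends_edge i t ht, Sym2.mk_isDiag_iff]
  exact vert_ne S i t ht

/-- the weight: `k` times the Petersen weight along the paths, `0` elsewhere -/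
noncomputable def wt (S : PetersenSubdivision ends) (k : ℕ) (e : E) : ℕ :=
  if h : ∃ p : Fin 15 × ℕ, p.2 < S.len p.1 ∧ S.edge p.1 p.2 = e then
    k * w0 (Classical.choose h).1 else 0

lemma wt_edge (S : PetersenSubdivision ends) (k : ℕ) (i : Fin 15) (t : ℕ) (ht : t < S.len i) :
    wt S k (S.edge i t) = k * w0 i := by
  have h : ∃ p : Fin 15 × ℕ, p.2 < S.len p.1 ∧ S.edge p.1 p.2 = S.edge i t := ⟨(i, t), ht, rfl⟩
  have h2 := Classical.choose_spec h
  have h3 := S.edge_inj _ _ _ _ h2.1 ht h2.2
  unfold wt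
  rw [dif_pos h, h3.1]

lemma wt_other (S : PetersenSubdivision ends) (k : ℕ) (e : E)
    (h : ¬ ∃ p : Fin 15 × ℕ, p.2 < S.len p.1 ∧ S.edge p.1 p.2 = e) : wt S k e = 0 := by
  unfold wt
  rw [dif_neg h]

lemma exists_of_wt (S : PetersenSubdivision ends) (k : ℕ) (e : E) (h : wt S k e ≠ 0) :
    ∃ (i : Fin 15) (t : ℕ), t < S.len i ∧ S.edge i t = e := by
  by_contra hc
  apply h
  apply wt_other
  rintro ⟨⟨i, t⟩, h1, h2⟩
  exact hc ⟨i, t, h1, h2⟩

lemma dvd_wt (S : PetersenSubdivision ends) (k : ℕ) (e : E) : k ∣ wt S k e := by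
  unfold wt
  split_ifs
  · exact Dvd.intro _ rfl
  · exact dvd_zero _

/-- the number of cut edges on the path `i` among the first `n` edges -/
noncomputable def cnt (S : PetersenSubdivision ends) (X : Set V) (i : Fin 15) (n : ℕ) : ℕ :=
  ((range n).filter (fun t => InCut ends X (S.edge i t))).card

lemma inCut_edge (S : PetersenSubdivision ends) (X : Set V) (i : Fin 15) (t : ℕ)
    (ht : t < S.len i) :
    InCut ends X (S.edge i t) ↔ ¬ (S.vert i t ∈ X ↔ S.vert i (t + 1) ∈ X) := by
  unfold InCut
  rw [S.ends_edge i t ht]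
  constructor
  · rintro ⟨x, y, h, hx, hy⟩ hiff
    rcases Sym2.eq_iff.mp h with ⟨h1, h2⟩ | ⟨h1, h2⟩
    · rw [h1, h2] at hiff
      exact hy (hiff.mp hx)
    · rw [h1, h2] at hiff
      exact hy (hiff.mpr hx)
  · intro h
    by_cases h1 : S.vert i t ∈ X
    · by_cases h2 : S.vert i (t + 1) ∈ X
      · exact absurd (iff_of_true h1 h2) h
      · exact ⟨_, _, rfl, h1, h2⟩
    · by_cases h2 : S.vert i (t + 1) ∈ X
      · exact ⟨_, _, Sym2.eq_swap, h2, h1⟩
      · exact absurd (iff_of_false h1 h2) h

/-- indicator of a proposition -/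
noncomputable def ind (p : Prop) : ℕ := if p then 1 else 0

lemma ind_true {p : Prop} (h : p) : ind p = 1 := if_pos h

lemma ind_false {p : Prop} (h : ¬ p) : ind p = 0 := if_neg h

lemma ind_le (p : Prop) : ind p ≤ 1 := by
  unfold ind
  split_ifs <;> omega

lemma cnt_parity (S : PetersenSubdivision ends) (X : Set V) (i : Fin 15) (n : ℕ)
    (hn : n ≤ S.len i) :
    Even (cnt S X i n + ind (S.vert i 0 ∈ X) + ind (S.vert i n ∈ X)) := by
  induction n with
  | zero =>
    have : cnt S X i 0 = 0 := by simp [cnt]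
    rw [this]
    exact ⟨ind (S.vert i 0 ∈ X), by omega⟩
  | succ n ih =>
    have ih' := ih (by omega)
    have hc := inCut_edge S X i n (by omega)
    have hstep : cnt S X i (n + 1) = cnt S X i n + ind (InCut ends X (S.edge i n)) := by
      unfold cnt
      rw [Finset.range_add_one, Finset.filter_insert]
      by_cases h : InCut ends X (S.edge i n)
      · rw [if_pos h, ind_true h, Finset.card_insert_of_notMem]
        simp
      · rw [if_neg h, ind_false h]
        rfl
    rw [hstep]
    obtain ⟨r, hr⟩ := ih'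
    by_cases h1 : S.vert i n ∈ X
    · by_cases h2 : S.vert i (n + 1) ∈ X
      · rw [ind_true h1] at hr
        rw [ind_true h2, ind_false (fun h => (hc.mp h) (iff_of_true h1 h2))]
        exact ⟨r, by omega⟩
      · rw [ind_true h1] at hr
        rw [ind_false h2, ind_true (hc.mpr (fun h => h2 (h.mp h1)))]
        exact ⟨r, by omega⟩
    · by_cases h2 : S.vert i (n + 1) ∈ X
      · rw [ind_false h1] at hr
        rw [ind_true h2, ind_true (hc.mpr (fun h => h1 (h.mpr h2)))]
        exact ⟨r + 1, by omega⟩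
      · rw [ind_false h1] at hr
        rw [ind_false h2, ind_false (fun h => (hc.mp h) (iff_of_false h1 h2))]
        exact ⟨r, by omega⟩

lemma cnt_parity' (S : PetersenSubdivision ends) (X : Set V) (i : Fin 15) :
    Even (cnt S X i (S.len i) + ind (S.branch (pa i) ∈ X) + ind (S.branch (pb i) ∈ X)) := by
  have h := cnt_parity S X i (S.len i) le_rfl
  rwa [S.vert_start, S.vert_end] at h

lemma sum15 (f : Fin 15 → ℕ) : ∑ i, f i = f 0 + f 1 + f 2 + f 3 + f 4 + f 5 + f 6 + f 7 + f 8 +
    f 9 + f 10 + f 11 + f 12 + f 13 + f 14 := by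
  simp only [Fin.sum_univ_succ, Fin.sum_univ_zero]
  simp only [← add_assoc, add_zero]
  rfl

lemma sumw (f : Fin 15 → ℕ) : ∑ i, f i * w0 i = f 0 + f 1 + f 2 + f 3 + f 4 + 2 * f 5 +
    2 * f 6 + 2 * f 7 + 2 * f 8 + 2 * f 9 + f 10 + f 11 + f 12 + f 13 + f 14 := by
  rw [sum15]
  have h0 : w0 0 = 1 := rfl
  have h1 : w0 1 = 1 := rfl
  have h2 : w0 2 = 1 := rfl
  have h3 : w0 3 = 1 := rfl
  have h4 : w0 4 = 1 := rfl
  have h5 : w0 5 = 2 := rfl
  have h6 : w0 6 = 2 := rfl
  have h7 : w0 7 = 2 := rfl
  have h8 : w0 8 = 2 := rfl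
  have h9 : w0 9 = 2 := rfl
  have h10 : w0 10 = 1 := rfl
  have h11 : w0 11 = 1 := rfl
  have h12 : w0 12 = 1 := rfl
  have h13 : w0 13 = 1 := rfl
  have h14 : w0 14 = 1 := rfl
  rw [h0, h1, h2, h3, h4, h5, h6, h7, h8, h9, h10, h11, h12, h13, h14]
  ring

lemma cutWeight_eq (S : PetersenSubdivision ends) (k : ℕ) (X : Set V) :
    cutWeight ends (wt S k) X = k * ∑ i : Fin 15, cnt S X i (S.len i) * w0 i := by
  unfold cutWeight
  set P : Finset (Σ _ : Fin 15, ℕ) := univ.sigma (fun i => range (S.len i)) with hP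
  have hsub : (P.image (fun p => S.edge p.1 p.2)).filter (InCut ends X) ⊆
      univ.filter (InCut ends X) := Finset.filter_subset_filter _ (Finset.subset_univ _)
  rw [← Finset.sum_subset hsub]
  · rw [Finset.sum_filter, Finset.sum_image]
    · rw [hP, Finset.sum_sigma, Finset.mul_sum]
      refine Finset.sum_congr rfl (fun i _ => ?_)
      rw [← Finset.sum_filter]
      have : ∀ t ∈ (range (S.len i)).filter (fun t => InCut ends X (S.edge i t)),
          wt S k (S.edge i t) = k * w0 i := by
        intro t ht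
        rw [Finset.mem_filter, Finset.mem_range] at ht
        exact wt_edge S k i t ht.1
      rw [Finset.sum_congr rfl this, Finset.sum_const, smul_eq_mul]
      unfold cnt
      ring
    · rintro ⟨i, t⟩ hp ⟨j, s⟩ hq h
      simp only [hP, Finset.coe_sigma, Set.mem_sigma_iff, Finset.mem_coe, Finset.mem_range,
        Finset.mem_univ, true_and] at hp hq
      obtain ⟨h1, h2⟩ := S.edge_inj i t j s hp hq h
      subst h1
      subst h2
      rfl
  · intro e he hne
    rw [Finset.mem_filter] at he
    by_contra hw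
    obtain ⟨i, t, ht, rfl⟩ := exists_of_wt S k e hw
    apply hne
    rw [Finset.mem_filter, Finset.mem_image]
    exact ⟨⟨⟨i, t⟩, by simp [hP, ht], rfl⟩, he.2⟩

lemma wt_eulerian (S : PetersenSubdivision ends) (k : ℕ) : IsEulerian ends (wt S k) := by
  intro X
  rw [cutWeight_eq, sumw]
  apply Even.mul_left
  obtain ⟨c0, h0⟩ := cnt_parity' S X 0
  obtain ⟨c1, h1⟩ := cnt_parity' S X 1
  obtain ⟨c2, h2⟩ := cnt_parity' S X 2
  obtain ⟨c3, h3⟩ := cnt_parity' S X 3
  obtain ⟨c4, h4⟩ := cnt_parity' S X 4
  obtain ⟨c10, h10⟩ := cnt_parity' S X 10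
  obtain ⟨c11, h11⟩ := cnt_parity' S X 11
  obtain ⟨c12, h12⟩ := cnt_parity' S X 12
  obtain ⟨c13, h13⟩ := cnt_parity' S X 13
  obtain ⟨c14, h14⟩ := cnt_parity' S X 14
  have a0 : pa 0 = 0 := rfl
  have a1 : pa 1 = 1 := rfl
  have a2 : pa 2 = 2 := rfl
  have a3 : pa 3 = 3 := rfl
  have a4 : pa 4 = 4 := rfl
  have a10 : pa 10 = 5 := rfl
  have a11 : pa 11 = 6 := rfl
  have a12 : pa 12 = 7 := rfl
  have a13 : pa 13 = 8 := rfl
  have a14 : pa 14 = 9 := rfl
  have b0 : pb 0 = 1 := rfl
  have b1 : pb 1 = 2 := rfl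
  have b2 : pb 2 = 3 := rfl
  have b3 : pb 3 = 4 := rfl
  have b4 : pb 4 = 0 := rfl
  have b10 : pb 10 = 7 := rfl
  have b11 : pb 11 = 8 := rfl
  have b12 : pb 12 = 9 := rfl
  have b13 : pb 13 = 5 := rfl
  have b14 : pb 14 = 6 := rfl
  rw [a0, b0] at h0
  rw [a1, b1] at h1
  rw [a2, b2] at h2
  rw [a3, b3] at h3
  rw [a4, b4] at h4
  rw [a10, b10] at h10
  rw [a11, b11] at h11
  rw [a12, b12] at h12
  rw [a13, b13] at h13
  rw [a14, b14] at h14
  rw [Nat.even_iff]
  omega

/-- a path with ends on different sides has a cut edge -/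
lemma cnt_ge (S : PetersenSubdivision ends) (X : Set V) (i : Fin 15) :
    xr (decide (S.branch (pa i) ∈ X)) (decide (S.branch (pb i) ∈ X)) ≤ cnt S X i (S.len i) := by
  have h := cnt_parity' S X i
  obtain ⟨r, hr⟩ := h
  unfold xr
  by_cases h1 : S.branch (pa i) ∈ X
  · by_cases h2 : S.branch (pb i) ∈ X
    · simp [h1, h2]
    · rw [ind_true h1, ind_false h2] at hr
      simp only [h1, h2, decide_true, decide_false]
      rw [if_neg (by decide)]
      omega
  · by_cases h2 : S.branch (pb i) ∈ X
    · rw [ind_false h1, ind_true h2] at hr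
      simp only [h1, h2, decide_true, decide_false]
      rw [if_neg (by decide)]
      omega
    · simp [h1, h2]

lemma wt_admissible (S : PetersenSubdivision ends) (k : ℕ) : IsAdmissible ends (wt S k) := by
  intro X e he
  by_cases hw : wt S k e = 0
  · rw [hw]
    exact Nat.zero_le _
  obtain ⟨i, t, ht, rfl⟩ := exists_of_wt S k e hw
  rw [wt_edge S k i t ht, cutWeight_eq]
  suffices h : 2 * w0 i ≤ ∑ i : Fin 15, cnt S X i (S.len i) * w0 i by
    have h' := Nat.mul_le_mul_left k h
    have h2 : k * (2 * w0 i) = k * w0 i + k * w0 i := by ring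
    omega
  have hpos : 1 ≤ cnt S X i (S.len i) := by
    unfold cnt
    rw [Nat.one_le_iff_ne_zero, ← Nat.pos_iff_ne_zero, Finset.card_pos]
    exact ⟨t, by rw [Finset.mem_filter, Finset.mem_range]; exact ⟨ht, he⟩⟩
  rcases Nat.lt_or_ge 1 (cnt S X i (S.len i)) with h1 | h1
  · calc 2 * w0 i ≤ cnt S X i (S.len i) * w0 i := Nat.mul_le_mul_right _ h1
      _ ≤ _ := Finset.single_le_sum (f := fun i => cnt S X i (S.len i) * w0 i)
        (fun _ _ => Nat.zero_le _) (Finset.mem_univ i)
  · have hc : cnt S X i (S.len i) = 1 := by omega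
    have hne : ¬ (S.branch (pa i) ∈ X ↔ S.branch (pb i) ∈ X) := by
      intro hiff
      obtain ⟨r, hr⟩ := cnt_parity' S X i
      rw [hc] at hr
      by_cases h2 : S.branch (pa i) ∈ X
      · rw [ind_true h2, ind_true (hiff.mp h2)] at hr
        omega
      · rw [ind_false h2, ind_false (fun h => h2 (hiff.mpr h))] at hr
        omega
    have h4 : 4 ≤ pcut (fun a => decide (S.branch a ∈ X)) := by
      rcases pcut_ge (fun a => decide (S.branch a ∈ X)) with h | h
      · exact h
      · exfalso
        apply hne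
        have ha := h (pa i)
        have hb := h (pb i)
        rw [← hb] at ha
        exact decide_eq_decide.mp ha
    rw [sumw]
    have hw := w0_le i
    have g0 := cnt_ge S X 0
    have g1 := cnt_ge S X 1
    have g2 := cnt_ge S X 2
    have g3 := cnt_ge S X 3
    have g4 := cnt_ge S X 4
    have g5 := cnt_ge S X 5
    have g6 := cnt_ge S X 6
    have g7 := cnt_ge S X 7
    have g8 := cnt_ge S X 8
    have g9 := cnt_ge S X 9
    have g10 := cnt_ge S X 10
    have g11 := cnt_ge S X 11
    have g12 := cnt_ge S X 12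
    have g13 := cnt_ge S X 13
    have g14 := cnt_ge S X 14
    have hp : pcut (fun a => decide (S.branch a ∈ X)) =
      xr (decide (S.branch (pa 0) ∈ X)) (decide (S.branch (pb 0) ∈ X)) +
      xr (decide (S.branch (pa 1) ∈ X)) (decide (S.branch (pb 1) ∈ X)) +
      xr (decide (S.branch (pa 2) ∈ X)) (decide (S.branch (pb 2) ∈ X)) +
      xr (decide (S.branch (pa 3) ∈ X)) (decide (S.branch (pb 3) ∈ X)) +
      xr (decide (S.branch (pa 4) ∈ X)) (decide (S.branch (pb 4) ∈ X)) +
      2 * xr (decide (S.branch (pa 5) ∈ X)) (decide (S.branch (pb 5) ∈ X)) +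
      2 * xr (decide (S.branch (pa 6) ∈ X)) (decide (S.branch (pb 6) ∈ X)) +
      2 * xr (decide (S.branch (pa 7) ∈ X)) (decide (S.branch (pb 7) ∈ X)) +
      2 * xr (decide (S.branch (pa 8) ∈ X)) (decide (S.branch (pb 8) ∈ X)) +
      2 * xr (decide (S.branch (pa 9) ∈ X)) (decide (S.branch (pb 9) ∈ X)) +
      xr (decide (S.branch (pa 10) ∈ X)) (decide (S.branch (pb 10) ∈ X)) +
      xr (decide (S.branch (pa 11) ∈ X)) (decide (S.branch (pb 11) ∈ X)) +
      xr (decide (S.branch (pa 12) ∈ X)) (decide (S.branch (pb 12) ∈ X)) +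
      xr (decide (S.branch (pa 13) ∈ X)) (decide (S.branch (pb 13) ∈ X)) +
      xr (decide (S.branch (pa 14) ∈ X)) (decide (S.branch (pb 14) ∈ X)) := rfl
    rw [hp] at h4
    omega

/-! ### Even sets along a subdivision -/

/-- a set of edges of the subdivision contains one of two consecutive edges of a path if and only
if it contains the other -/
lemma step_iff (S : PetersenSubdivision ends) (C : Finset E) (hC : IsEvenSet ends C)
    (hsub : ∀ e ∈ C, ∃ (i : Fin 15) (t : ℕ), t < S.len i ∧ S.edge i t = e)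
    (i : Fin 15) (t : ℕ) (ht : t + 1 < S.len i) :
    S.edge i t ∈ C ↔ S.edge i (t + 1) ∈ C := by
  have hev := hC (S.vert i (t + 1))
  have hE : C.filter (fun e => S.vert i (t + 1) ∈ ends e ∧ ¬ (ends e).IsDiag) =
      ({S.edge i t, S.edge i (t + 1)} : Finset E).filter (fun e => e ∈ C) := by
    ext e
    rw [Finset.mem_filter, Finset.mem_filter, Finset.mem_insert, Finset.mem_singleton]
    constructor
    · rintro ⟨he, hv, -⟩
      refine ⟨?_, he⟩
      obtain ⟨j, s, hs, rfl⟩ := hsub e he
      rw [S.ends_edge j s hs, Sym2.mem_iff] at hv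
      rcases hv with hv | hv
      · rcases Nat.eq_zero_or_pos s with h0 | h0
        · subst h0
          rw [S.vert_start] at hv
          exact absurd hv (S.interior_ne_branch i (t + 1) _ (by omega) ht)
        · obtain ⟨h1, h2⟩ := S.interior_inj i (t + 1) j s (by omega) ht h0 hs hv
          right
          rw [h1, h2]
      · rcases Nat.lt_or_ge (s + 1) (S.len j) with h0 | h0
        · obtain ⟨h1, h2⟩ := S.interior_inj i (t + 1) j (s + 1) (by omega) ht (by omega) h0 hv
          left
          rw [h1]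
          congr 1
          omega
        · have h1 : s + 1 = S.len j := by omega
          rw [h1, S.vert_end] at hv
          exact absurd hv (S.interior_ne_branch i (t + 1) _ (by omega) ht)
    · rintro ⟨he | he, hc⟩
      · refine ⟨hc, ?_, ?_⟩
        · rw [he, S.ends_edge i t (by omega), Sym2.mem_iff]
          right
          rfl
        · rw [he]
          exact not_diag S i t (by omega)
      · refine ⟨hc, ?_, ?_⟩
        · rw [he, S.ends_edge i (t + 1) (by omega), Sym2.mem_iff]
          left
          rfl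
        · rw [he]
          exact not_diag S i (t + 1) (by omega)
  rw [hE] at hev
  have hne : S.edge i t ≠ S.edge i (t + 1) := by
    intro h
    have := (S.edge_inj i t i (t + 1) (by omega) ht h).2
    omega
  by_cases h1 : S.edge i t ∈ C
  · by_cases h2 : S.edge i (t + 1) ∈ C
    · exact iff_of_true h1 h2
    · rw [Finset.filter_insert, if_pos h1, Finset.filter_singleton, if_neg h2] at hev
      simp at hev
  · by_cases h2 : S.edge i (t + 1) ∈ C
    · rw [Finset.filter_insert, if_neg h1, Finset.filter_singleton, if_pos h2] at hev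
      simp at hev
    · exact iff_of_false h1 h2

lemma all_iff (S : PetersenSubdivision ends) (C : Finset E) (hC : IsEvenSet ends C)
    (hsub : ∀ e ∈ C, ∃ (i : Fin 15) (t : ℕ), t < S.len i ∧ S.edge i t = e)
    (i : Fin 15) (t : ℕ) (ht : t < S.len i) :
    S.edge i t ∈ C ↔ S.edge i 0 ∈ C := by
  induction t with
  | zero => rfl
  | succ t ih => rw [← step_iff S C hC hsub i t ht, ih (by omega)]

/-- the parity condition at a branch vertex -/
lemma branch_even (S : PetersenSubdivision ends) (C : Finset E) (hC : IsEvenSet ends C)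
    (hsub : ∀ e ∈ C, ∃ (i : Fin 15) (t : ℕ), t < S.len i ∧ S.edge i t = e) (a : Fin 10) :
    Even (((univ : Finset (Fin 15)).filter
      (fun i => (pa i = a ∨ pb i = a) ∧ S.edge i 0 ∈ C)).card) := by
  have hev := hC (S.branch a)
  have hE : C.filter (fun e => S.branch a ∈ ends e ∧ ¬ (ends e).IsDiag) =
      ((univ : Finset (Fin 15)).filter
      (fun i => (pa i = a ∨ pb i = a) ∧ S.edge i 0 ∈ C)).image
        (fun i => if pa i = a then S.edge i 0 else S.edge i (S.len i - 1)) := by
    ext e
    rw [Finset.mem_filter, Finset.mem_image]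
    constructor
    · rintro ⟨he, hv, -⟩
      obtain ⟨j, s, hs, rfl⟩ := hsub e he
      rw [S.ends_edge j s hs, Sym2.mem_iff] at hv
      have hj := (all_iff S C hC hsub j s hs).mp he
      rcases hv with hv | hv
      · rcases Nat.eq_zero_or_pos s with h0 | h0
        · subst h0
          rw [S.vert_start] at hv
          have h2 := S.branch_inj hv
          refine ⟨j, ?_, ?_⟩
          · rw [Finset.mem_filter]
            exact ⟨Finset.mem_univ _, Or.inl h2.symm, hj⟩
          · rw [if_pos h2.symm]
        · exact absurd hv.symm (S.interior_ne_branch j s a h0 hs)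
      · rcases Nat.lt_or_ge (s + 1) (S.len j) with h0 | h0
        · exact absurd hv.symm (S.interior_ne_branch j (s + 1) a (by omega) h0)
        · have h1 : s + 1 = S.len j := by omega
          rw [h1, S.vert_end] at hv
          have h2 := S.branch_inj hv
          refine ⟨j, ?_, ?_⟩
          · rw [Finset.mem_filter]
            exact ⟨Finset.mem_univ _, Or.inr h2.symm, hj⟩
          · have h3 : pa j ≠ a := fun h => pa_ne_pb j (h.trans h2)
            rw [if_neg h3]
            congr 1
            omega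
    · rintro ⟨j, hj, he⟩
      rw [Finset.mem_filter] at hj
      obtain ⟨-, hj, hjC⟩ := hj
      have hlen := S.len_pos j
      by_cases h1 : pa j = a
      · rw [if_pos h1] at he
        rw [← he]
        refine ⟨hjC, ?_, not_diag S j 0 hlen⟩
        rw [S.ends_edge j 0 hlen, Sym2.mem_iff, S.vert_start, h1]
        left
        rfl
      · rw [if_neg h1] at he
        have h2 : pb j = a := hj.resolve_left h1
        rw [← he]
        refine ⟨(all_iff S C hC hsub j _ (by omega)).mpr hjC, ?_,
          not_diag S j _ (by omega)⟩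
        rw [S.ends_edge j _ (by omega), Sym2.mem_iff, Nat.sub_add_cancel hlen, S.vert_end, h2]
        right
        rfl
  rw [hE, Finset.card_image_of_injOn] at hev
  · exact hev
  · intro i _ j _ h
    simp only at h
    have hi := S.len_pos i
    have hj := S.len_pos j
    split_ifs at h
    · exact (S.edge_inj _ _ _ _ hi hj h).1
    · exact (S.edge_inj _ _ _ _ hi (by omega) h).1
    · exact (S.edge_inj _ _ _ _ (by omega) hj h).1
    · exact (S.edge_inj _ _ _ _ (by omega) (by omega) h).1

/-- the three edges at a vertex -/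
lemma three (f : Fin 15 → Prop) [DecidablePred f] (a : Fin 10) (x y z : Fin 15)
    (h : ∀ i : Fin 15, (pa i = a ∨ pb i = a) ↔ (i = x ∨ i = y ∨ i = z))
    (hxy : x ≠ y) (hxz : x ≠ z) (hyz : y ≠ z)
    (he : Even (((univ : Finset (Fin 15)).filter
      (fun i => (pa i = a ∨ pb i = a) ∧ f i)).card)) :
    Even (ind (f x) + ind (f y) + ind (f z)) := by
  have h1 : (univ : Finset (Fin 15)).filter (fun i => (pa i = a ∨ pb i = a) ∧ f i) =
      ({x, y, z} : Finset (Fin 15)).filter f := by
    ext i
    simp [h i]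
  rw [h1, Finset.card_filter, Finset.sum_insert (by simp [hxy, hxz]),
    Finset.sum_insert (by simp [hyz]), Finset.sum_singleton, ← add_assoc] at he
  unfold ind
  convert he

end Subdivision

/-- If the graph contains a subdivision of the Petersen graph, then it has property `P_k` for no
odd `k`. -/
theorem result (k : ℕ) (hk : Odd k) {V E : Type} [Fintype V] [Fintype E] (ends : E → Sym2 V)
    (S : PetersenSubdivision ends) : ¬ PropertyP ends k := by
  intro hP
  obtain ⟨n, C, hC, hcov⟩ := hP (wt S k) (dvd_wt S k) (wt_admissible S k) (wt_eulerian S k)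
  have hsub : ∀ j, ∀ e ∈ C j, ∃ (i : Fin 15) (t : ℕ), t < S.len i ∧ S.edge i t = e := by
    intro j e he
    apply exists_of_wt S k e
    rw [← hcov e]
    apply Finset.card_ne_zero_of_mem (a := j)
    rw [Finset.mem_filter]
    exact ⟨Finset.mem_univ _, he⟩
  have hbr : ∀ j a, Even (((univ : Finset (Fin 15)).filter
      (fun i => (pa i = a ∨ pb i = a) ∧ S.edge i 0 ∈ C j)).card) :=
    fun j a => branch_even S (C j) (hC j).2.1 (hsub j) a
  have q0 := fun j => three (fun i => S.edge i 0 ∈ C j) 0 4 0 5 (by decide) (by decide)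
    (by decide) (by decide) (hbr j 0)
  have q1 := fun j => three (fun i => S.edge i 0 ∈ C j) 1 0 1 6 (by decide) (by decide)
    (by decide) (by decide) (hbr j 1)
  have q2 := fun j => three (fun i => S.edge i 0 ∈ C j) 2 1 2 7 (by decide) (by decide)
    (by decide) (by decide) (hbr j 2)
  have q3 := fun j => three (fun i => S.edge i 0 ∈ C j) 3 2 3 8 (by decide) (by decide)
    (by decide) (by decide) (hbr j 3)
  have q4 := fun j => three (fun i => S.edge i 0 ∈ C j) 4 3 4 9 (by decide) (by decide)
    (by decide) (by decide) (hbr j 4)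
  have q5 := fun j => three (fun i => S.edge i 0 ∈ C j) 5 13 10 5 (by decide) (by decide)
    (by decide) (by decide) (hbr j 5)
  have q6 := fun j => three (fun i => S.edge i 0 ∈ C j) 6 14 11 6 (by decide) (by decide)
    (by decide) (by decide) (hbr j 6)
  have q7 := fun j => three (fun i => S.edge i 0 ∈ C j) 7 10 12 7 (by decide) (by decide)
    (by decide) (by decide) (hbr j 7)
  have q8 := fun j => three (fun i => S.edge i 0 ∈ C j) 8 11 13 8 (by decide) (by decide)
    (by decide) (by decide) (hbr j 8)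
  have q9 := fun j => three (fun i => S.edge i 0 ∈ C j) 9 12 14 9 (by decide) (by decide)
    (by decide) (by decide) (hbr j 9)
  refine no_odd (fun j i => ind (S.edge i 0 ∈ C j)) (fun j i => ind_le _)
    q0 q1 q2 q3 q4 q5 q6 q7 q8 q9 k hk ?_
  intro i
  rw [← wt_edge S k i 0 (S.len_pos i), ← hcov (S.edge i 0), Finset.card_filter]
  unfold ind
  refine Finset.sum_congr rfl (fun j _ => ?_)
  congr

end Pool.Agent.Results.MP_3c540c_co.OddMultiples
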